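import Mathlib
import Pool.Agent.Helper63.EV.Ex

set_option autoImplicit false

/-!
# How many endvertices force endvertex-reconstructibility

`α* ≥ 2/5`, and every graph with `n` vertices, none isolated, and at least `n - √(2 n) + 5/2`
endvertices is endvertex-reconstructible.  If at most `s` endvertices hang at each vertex, then a
proportion above `s / (s + 2)` suffices when the non-endvertices induce a graph of minimum degree
at least two and there are at least three endvertices, and a proportion above
`(s + 2) / (s + 4)` suffices when at least five endvertices have a neighbour of degree at least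
three.
-/

namespace Pool.Agent.Results.MP_9525dc_co.ProportionBounds

/-- `v` is an endvertex: it has exactly one neighbour. -/
def IsEnd {V : Type} (G : SimpleGraph V) (v : V) : Prop := ∃! u, G.Adj v u

/-- No isolated vertices. -/
def NoIsolated {V : Type} (G : SimpleGraph V) : Prop := ∀ v, ∃ u, G.Adj v u

/-- The endvertex-decks of `G` and `G'` agree as multisets of isomorphism classes. -/
def SameDeck {V W : Type} (G : SimpleGraph V) (G' : SimpleGraph W) : Prop :=
  ∃ e : {v // IsEnd G v} ≃ {w // IsEnd G' w},
    ∀ v, Nonempty (G.induce {v.1}ᶜ ≃g G'.induce {(e v).1}ᶜ)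

/-- `G` is endvertex-reconstructible. -/
def Recon {V : Type} (G : SimpleGraph V) : Prop :=
  ∀ (W : Type) [Fintype W] (G' : SimpleGraph W), NoIsolated G' → SameDeck G G' →
    Nonempty (G ≃g G')

/-- The number `k` of endvertices. -/
noncomputable def numEnds {V : Type} (G : SimpleGraph V) : ℕ := {v | IsEnd G v}.ncard

/-- The number of endvertices whose neighbour has degree at least three. -/
noncomputable def numBig {V : Type} (G : SimpleGraph V) : ℕ :=
  {v | IsEnd G v ∧ ∃ u, G.Adj v u ∧ 3 ≤ {w | G.Adj u w}.ncard}.ncard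

/-- The number of endvertices adjacent to `v`. -/
noncomputable def att {V : Type} (G : SimpleGraph V) (v : V) : ℕ :=
  {u | G.Adj v u ∧ IsEnd G u}.ncard

/-- The number of non-endvertices adjacent to `v`. -/
noncomputable def coreDeg {V : Type} (G : SimpleGraph V) (v : V) : ℕ :=
  {u | G.Adj v u ∧ ¬ IsEnd G u}.ncard

/-- The core: the graph induced on the vertices that are not endvertices. -/
abbrev core {V : Type} (G : SimpleGraph V) : SimpleGraph {v : V // ¬ IsEnd G v} :=
  G.induce {v | ¬ IsEnd G v}

/-- The orbit of `v` under the automorphisms of the core. -/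
def orbit {V : Type} (G : SimpleGraph V) (v : {v : V // ¬ IsEnd G v}) :
    Set {v : V // ¬ IsEnd G v} := {u | ∃ φ : core G ≃g core G, φ v = u}

/-- `α` is sufficient: every nonempty graph `G` with at least `α |V(G)|` endvertices is
endvertex-reconstructible. -/
def Sufficient (α : ℝ) : Prop :=
  ∀ (V : Type) [Fintype V] [Nonempty V] (G : SimpleGraph V), NoIsolated G →
    α * Nat.card V ≤ numEnds G → Recon G

/-- The number `α*` of the problem. -/
noncomputable def alphaStar : ℝ := sInf {α : ℝ | 0 ≤ α ∧ α ≤ 1 ∧ Sufficient α}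

/-- The number `m` of vertices that are not endvertices (not used in the statement). -/
noncomputable def numCore {V : Type} (G : SimpleGraph V) : ℕ := {v | ¬ IsEnd G v}.ncard

open Pool.Agent.Helper63.EV in
lemma not_sufficient {α : ℝ} (hα : α ≤ 2 / 5) : ¬ Sufficient α := by
  intro h
  have h1 : numEnds X1 = 2 := ncard_ends_X1
  refine not_iso_X (h (Fin 5) X1 noIso_X1 ?_ (Fin 5) X2 noIso_X2 sameDeck_X)
  rw [h1, Nat.card_eq_fintype_card, Fintype.card_fin]
  push_cast
  linarith

open Pool.Agent.Helper63.EV in
lemma sufficient_one : Sufficient 1 := by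
  intro V _ _ G hN hα
  have h1 : Nat.card V ≤ numEnds G := by
    rw [one_mul] at hα
    exact_mod_cast hα
  have h2 : {v | IsEnd G v} = Set.univ := by
    apply Set.eq_of_subset_of_ncard_le (Set.subset_univ _)
    rw [Set.ncard_univ]
    exact h1
  have hall : ∀ v, IsEnd G v := fun v => by
    have : v ∈ {v | IsEnd G v} := by rw [h2]; trivial
    exact this
  intro W _ G' hN' hD
  obtain ⟨x⟩ := ‹Nonempty V›
  obtain ⟨y, hy⟩ := hN x
  exact iso_of_adj_ends hN' hD (hall x) (hall y) hy

open Pool.Agent.Helper63.EV in
theorem result :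
    2 / 5 ≤ alphaStar ∧
    (∀ (V : Type) [Fintype V] (G : SimpleGraph V), NoIsolated G →
      (Nat.card V : ℝ) - √(2 * Nat.card V) + 5 / 2 ≤ numEnds G → Recon G) ∧
    (∀ (V : Type) [Fintype V] (G : SimpleGraph V) (s : ℕ), NoIsolated G →
      ((3 ≤ numEnds G ∧ (∀ v, ¬ IsEnd G v → 2 ≤ coreDeg G v) ∧
          (∀ v : {v : V // ¬ IsEnd G v}, att G v.1 ≤ s ∨ (orbit G v).ncard ≤ s + 1) ∧
          (s : ℝ) / (s + 2) * Nat.card V < numEnds G) ∨
        (5 ≤ numBig G ∧ (∀ v, ¬ IsEnd G v → att G v ≤ s) ∧
          ((s : ℝ) + 2) / (s + 4) * Nat.card V < numEnds G)) →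
      Recon G) := by
  classical
  have hsplit : ∀ (V : Type) [Fintype V] (G : SimpleGraph V),
      Nat.card V = numEnds G + numCore G := by
    intro V _ G
    have := Set.ncard_add_ncard_compl {v | IsEnd G v}
    rw [← this]; rfl
  refine ⟨?_, ?_, ?_⟩
  · refine le_csInf ⟨1, by norm_num, le_refl _, sufficient_one⟩ ?_
    rintro α ⟨_, _, h⟩
    by_contra hcon
    push Not at hcon
    exact not_sufficient hcon.le h
  · intro V _ G hN hk
    by_contra hR
    have hs := hsplit V G
    have h1 : ((numCore G : ℝ) + 5 / 2) ≤ √(2 * Nat.card V) := by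
      have : (Nat.card V : ℝ) = numEnds G + numCore G := by exact_mod_cast hs
      linarith
    have h2 : ((numCore G : ℝ) + 5 / 2) ^ 2 ≤ 2 * Nat.card V := by
      have h3 := pow_le_pow_left₀ (by positivity) h1 2
      rwa [Real.sq_sqrt (by positivity)] at h3
    have h3 : (Nat.card V : ℝ) = numEnds G + numCore G := by exact_mod_cast hs
    rw [h3] at h2
    have h4 : (4 * (numCore G : ℝ) + 6) ≤ 2 * numEnds G := by
      nlinarith [sq_nonneg ((numCore G : ℝ) - 1 / 2)]
    have h5 : 2 * numCore G + 3 ≤ numEnds G := by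
      have : 4 * numCore G + 6 ≤ 2 * numEnds G := by exact_mod_cast h4
      omega
    obtain ⟨hK, hlev, -⟩ := nonrec_structure (G := G) hN hR (Or.inl h5)
    have h6 : 2 * numEnds G ≤ numCore G * (numCore G + 3) := quad_bound (G := G) hN hK hlev
    have h7 : (2 * (numEnds G : ℝ)) ≤ numCore G * (numCore G + 3) := by exact_mod_cast h6
    nlinarith
  · intro V _ G s hN hk
    by_contra hR
    have hs := hsplit V G
    have h3 : (Nat.card V : ℝ) = numEnds G + numCore G := by exact_mod_cast hs
    rcases hk with ⟨hk1, hk2, hatt, hk3⟩ | ⟨hk1, hatt, hk2⟩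
    · have hr : ∀ c : Cr G, rr G c = 0 := by
        intro c
        have h4 : 2 ≤ dgN G c.1 := hk2 c.1 c.2
        unfold rr
        omega
      obtain ⟨hK, hlev, -⟩ := nonrec_structure (G := G) hN hR (Or.inr (Or.inr ⟨hk1, hr⟩))
      have hzs : ∀ c : Cr G, zz G c ≤ s := by
        intro c
        rcases hatt c with h | h
        · have h4 : zz G c ≤ att G c.1 := Nat.sub_le _ _
          omega
        · have h4 : zz G c < (orbit G c).ncard := zz_lt_orbit (G := G) hlev c
          omega
      have h5 : 2 * numEnds G ≤ s * numCore G := s_bound_zz (G := G) hN hK hr hlev hzs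
      have h6 : 2 * (numEnds G : ℝ) ≤ s * numCore G := by exact_mod_cast h5
      rw [h3, div_mul_eq_mul_div, div_lt_iff₀ (by positivity)] at hk3
      nlinarith
    · obtain ⟨hK, hlev, -⟩ := nonrec_structure (G := G) hN hR (Or.inr (Or.inl hk1))
      have h5 : 2 * numEnds G ≤ (s + 2) * numCore G := s_bound (G := G) hN hK hlev hatt
      have h6 : 2 * (numEnds G : ℝ) ≤ (s + 2) * numCore G := by exact_mod_cast h5
      rw [h3, div_mul_eq_mul_div, div_lt_iff₀ (by positivity)] at hk2
      nlinarith

end Pool.Agent.Results.MP_9525dc_co.ProportionBounds
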