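import Mathlib
import Pool.Agent.Helper63.EV.Coro
import Pool.Agent.Helper63.EV.Fact

set_option autoImplicit false

/-!
# Structure of graphs that are not endvertex-reconstructible

Let `G` be a graph without isolated vertices, with `k` endvertices, and let `H` be the graph on the
other vertices.  Suppose that `k ≥ 3` and that `H` has minimum degree at least two, or that at least
five endvertices have a neighbour of degree at least three.  If `G` is not endvertex-reconstructible
then, on every set of vertices of `H` invariant under `Aut H`, the numbers of vertices carrying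
`0, 1, 2, …` endvertices (in excess of those needed for degree two) are non-increasing, and the
product of the numbers `1 + (excess at v)` is at most `2 |Aut H|`.
-/

namespace Pool.Agent.Results.MP_9525dc_co.StructureTheorem

/-- `v` is an endvertex: it has exactly one neighbour. -/
def IsEnd {V : Type} (G : SimpleGraph V) (v : V) : Prop := ∃! u, G.Adj v u

/-- No isolated vertices. -/
def NoIsolated {V : Type} (G : SimpleGraph V) : Prop := ∀ v, ∃ u, G.Adj v u

/-- The endvertex-decks of `G` and `G'` agree as multisets of isomorphism classes. -/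
def SameDeck {V W : Type} (G : SimpleGraph V) (G' : SimpleGraph W) : Prop :=
  ∃ e : {v // IsEnd G v} ≃ {w // IsEnd G' w},
    ∀ v, Nonempty (G.induce {v.1}ᶜ ≃g G'.induce {(e v).1}ᶜ)

/-- `G` is endvertex-reconstructible. -/
def Recon {V : Type} (G : SimpleGraph V) : Prop :=
  ∀ (W : Type) [Fintype W] (G' : SimpleGraph W), NoIsolated G' → SameDeck G G' →
    Nonempty (G ≃g G')

/-- The number `k` of endvertices. -/
noncomputable def numEnds {V : Type} (G : SimpleGraph V) : ℕ := {v | IsEnd G v}.ncard

/-- The number of endvertices whose neighbour has degree at least three. -/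
noncomputable def numBig {V : Type} (G : SimpleGraph V) : ℕ :=
  {v | IsEnd G v ∧ ∃ u, G.Adj v u ∧ 3 ≤ {w | G.Adj u w}.ncard}.ncard

/-- The core `H`: the graph induced on the vertices that are not endvertices. -/
abbrev core {V : Type} (G : SimpleGraph V) : SimpleGraph {v : V // ¬ IsEnd G v} :=
  G.induce {v | ¬ IsEnd G v}

/-- The number of endvertices adjacent to `v`. -/
noncomputable def att {V : Type} (G : SimpleGraph V) (v : V) : ℕ :=
  {u | G.Adj v u ∧ IsEnd G u}.ncard

/-- The degree of `v` in the core. -/
noncomputable def coreDeg {V : Type} (G : SimpleGraph V) (v : V) : ℕ :=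
  {u | G.Adj v u ∧ ¬ IsEnd G u}.ncard

/-- The excess of `v`: the number of endvertices at `v`, less the `2 - coreDeg` endvertices which
`v` needs in order not to be an endvertex itself (none if `coreDeg ≥ 2`). -/
noncomputable def excess {V : Type} (G : SimpleGraph V) (v : V) : ℕ := att G v - (2 - coreDeg G v)

open Pool.Agent.Helper63.EV in
theorem result :
    ∀ (V : Type) [Fintype V] (G : SimpleGraph V), NoIsolated G →
      ((3 ≤ numEnds G ∧ ∀ v, ¬ IsEnd G v → 2 ≤ coreDeg G v) ∨ 5 ≤ numBig G) →
      ¬ Recon G →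
      (∀ O : Set {v : V // ¬ IsEnd G v}, (∀ φ : core G ≃g core G, ∀ v, φ v ∈ O ↔ v ∈ O) →
        ∀ a : ℕ, {v ∈ O | excess G v.1 = a + 1}.ncard ≤ {v ∈ O | excess G v.1 = a}.ncard) ∧
      (∏ᶠ v : {v : V // ¬ IsEnd G v}, (1 + excess G v.1) ≤ 2 * Nat.card (core G ≃g core G)) ∧
      (∀ L : ℕ, L.choose 2 ≤ ∑ᶠ v : {v : V // ¬ IsEnd G v}, excess G v.1 →
        L.factorial ≤ 2 * Nat.card (core G ≃g core G)) := by
  classical
  intro V _ G hN hk hR
  have hk' : 2 * {v | ¬ Helper63.EV.IsEnd G v}.ncard + 3 ≤ {v | Helper63.EV.IsEnd G v}.ncard ∨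
      5 ≤ nBig G ∨ (3 ≤ {v | Helper63.EV.IsEnd G v}.ncard ∧ ∀ c : Cr G, rr G c = 0) := by
    rcases hk with ⟨h1, h2⟩ | h1
    · refine Or.inr (Or.inr ⟨h1, fun c => ?_⟩)
      have h3 : 2 ≤ dgN G c.1 := h2 c.1 c.2
      unfold rr
      omega
    · exact Or.inr (Or.inl h1)
  obtain ⟨hK, hlev, hprod⟩ := nonrec_structure (G := G) hN hR hk'
  have hexc : ∀ v : Cr G, excess G v.1 = zz G v := fun v => rfl
  have hcard : Nat.card (core G ≃g core G) = Nat.card (GG G) := by
    refine Nat.card_congr
      { toFun := fun φ => ⟨φ.toEquiv, fun a b => φ.map_rel_iff⟩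
        invFun := fun σ => ⟨σ.1, fun {a b} => σ.2 a b⟩
        left_inv := fun φ => rfl
        right_inv := fun σ => rfl }
  have hprod' : ∏ᶠ v : {v : V // ¬ IsEnd G v}, (1 + excess G v.1)
      ≤ 2 * Nat.card (core G ≃g core G) := by
    rw [hcard]
    rw [show (∏ᶠ v : {v : V // ¬ IsEnd G v}, (1 + excess G v.1)) = ∏ c : Cr G, (1 + zz G c) from
      finprod_eq_prod_of_fintype _]
    exact hprod
  refine ⟨?_, hprod', ?_⟩
  · intro O hO a
    have h1 := hlev (Finset.univ.filter fun c => c ∈ O) (by
      intro γ hγ v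
      simp only [Finset.mem_filter, Finset.mem_univ, true_and]
      exact hO ⟨γ, fun {a b} => hγ a b⟩ v) a
    have h2 : ∀ b : ℕ, {v ∈ O | excess G v.1 = b}.ncard
        = (lev (Finset.univ.filter fun c : Cr G => c ∈ O) (zz G) b).card := by
      intro b
      rw [← Set.ncard_coe_finset]
      congr 1
      ext v
      simp only [lev, Finset.coe_filter, Finset.mem_filter, Finset.mem_univ, true_and,
        Set.mem_ofPred_eq]
      rfl
    rw [h2, h2]
    exact h1
  · intro L hL
    rw [show (∑ᶠ v : {v : V // ¬ IsEnd G v}, excess G v.1) = ∑ c : Cr G, zz G c from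
      finsum_eq_sum_of_fintype _] at hL
    have h1 := fact_le_prod (hlev Finset.univ fun γ _ => pres_univ γ) hL
    rw [hcard]
    exact h1.trans hprod

end Pool.Agent.Results.MP_9525dc_co.StructureTheorem
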